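import Pool.Agent.Helper54.PT.DefsG

/-! Modules F1, F2 of the TG project (MP_1d384c_nt). -/

set_option autoImplicit false

namespace Pool.Agent.Helper54.PT

open Polynomial Finset Module

theorem f12_zlG {ℓ : ℕ} {σ : Type} [Fintype σ] [DecidableEq σ] (dR : σ → ZMod ℓ)
    (sR : σ → σ → ZMod ℓ) (b y : Option σ → ZMod ℓ) (t : Option σ) :
    zlG dR sR b y t = zlG dR sR b 0 t + y t := by
  cases t with
  | none => simp [zlG]
  | some r => simp [zlG]

theorem f12_zlG_add {ℓ : ℕ} {σ : Type} [Fintype σ] [DecidableEq σ] (dR : σ → ZMod ℓ)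
    (sR : σ → σ → ZMod ℓ) (b y b' y' : Option σ → ZMod ℓ) (t : Option σ) :
    zlG dR sR (fun s => b s + b' s) (fun s => y s + y' s) t =
      zlG dR sR b y t + zlG dR sR b' y' t := by
  cases t with
  | none =>
    simp only [zlG, mul_add, sum_add_distrib]
    ring
  | some r =>
    simp only [zlG, add_mul, sum_add_distrib]
    ring

variable {ℓ : ℕ} [Fact ℓ.Prime] {ι : Type} [Fintype ι] [DecidableEq ι] {σ : Type} [Fintype σ]
  [DecidableEq σ] {a : ι → ℕ} {i₀ : ι} {dR : σ → ZMod ℓ} {sR : σ → σ → ZMod ℓ}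
  {A : ι → ι → Option σ → ZMod ℓ} {M : Option σ → ZMod ℓ → Submodule (ZMod ℓ) (LSG ℓ i₀)}

/-- F1: sums -/
theorem add_mem_GDG (X : PData ℓ σ) (D : Finset X.P) :
    ∀ x ∈ GD X (tauG a i₀ A) (HMG i₀ dR sR M) D, ∀ y ∈ GD X (tauG a i₀ A) (HMG i₀ dR sR M) D,
      x + y ∈ GD X (tauG a i₀ A) (HMG i₀ dR sR M) D := by
  classical
  intro x hx y hy
  rw [GD, mem_filter] at hx hy ⊢
  refine ⟨mem_univ _, ?_, fun p j => ?_⟩
  · intro t
    have h1 := (M t (kap X D t)).add_mem (hx.2.1 t) (hy.2.1 t)
    refine (congrArg (fun w => w ∈ M t (kap X D t)) ?_).mp h1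
    refine Prod.ext ?_ ?_
    · funext j
      rfl
    · funext j
      change zlG dR sR (fun s => x.1 s j) (fun s => ysum X x.2 s j) t +
        zlG dR sR (fun s => y.1 s j) (fun s => ysum X y.2 s j) t =
          zlG dR sR (fun s => (x + y).1 s j) (fun s => ysum X (x + y).2 s j) t
      rw [← f12_zlG_add]
      congr 1
      funext s
      simp only [ysum, Pi.add_apply, Prod.snd_add, mul_add, sum_add_distrib]
  · have h1 : pcond X (tauG a i₀ A) (x + y).1 (x + y).2 p j =
        pcond X (tauG a i₀ A) x.1 x.2 p j + pcond X (tauG a i₀ A) y.1 y.2 p j := by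
      simp only [pcond, Prod.fst_add, Prod.snd_add, Pi.add_apply, map_add, add_mul,
        sum_add_distrib]
      have h2 : ∀ p' : D, (if p' = p then (0 : ZMod ℓ) else
          (x.2 p' j + y.2 p' j - (x.2 p j + y.2 p j)) * X.sym p' p) =
          (if p' = p then 0 else (x.2 p' j - x.2 p j) * X.sym p' p) +
          (if p' = p then 0 else (y.2 p' j - y.2 p j) * X.sym p' p) := by
        intro p'
        split_ifs
        · simp
        · ring
      rw [sum_congr rfl fun p' _ => h2 p', sum_add_distrib]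
      ring
    rw [h1, hx.2.2 p j, hy.2.2 p j, add_zero]

/-- F2: torsion -/
theorem tor_mem_GDG (hM : LDG a i₀ dR sR A M) (X : PData ℓ σ) (D : Finset X.P)
    (v : {j : ι // j ≠ i₀} → ZMod ℓ) :
    tor X (tauG a i₀ A) D v ∈ GD X (tauG a i₀ A) (HMG i₀ dR sR M) D := by
  classical
  rw [GD, mem_filter]
  refine ⟨mem_univ _, ?_, fun p j => ?_⟩
  · intro t
    have h1 : ysum X (fun _ : D => v) = fun s j => kap X D s * v j := by
      funext s j
      simp only [ysum, kap, sum_mul]
      exact sum_coe_sort D (fun p => X.xx p s * v j)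
    have h2 := hM.tor t (kap X D t) v
    refine (congrArg (fun w => w ∈ M t (kap X D t)) ?_).mp h2
    refine Prod.ext ?_ ?_
    · funext j
      rfl
    · funext j
      change _ = zlG dR sR (fun s => tauG a i₀ A v j s) (fun s => ysum X (fun _ : D => v) s j) t
      rw [h1, f12_zlG dR sR _ (fun s => kap X D s * v j)]
  · simp only [pcond, tor, sub_self, zero_mul, ite_self, sum_const_zero, add_zero]

end Pool.Agent.Helper54.PT
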