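import Pool.Agent.Helper54.PT.DefsG

/-! Module F3 of the TG project (MP_1d384c_nt). -/

set_option autoImplicit false

namespace Pool.Agent.Helper54.PT

open Polynomial Finset Module

theorem f3_zlG {ℓ : ℕ} {σ : Type} [Fintype σ] [DecidableEq σ] (dR : σ → ZMod ℓ)
    (sR : σ → σ → ZMod ℓ) (b y : Option σ → ZMod ℓ) (t : Option σ) :
    zlG dR sR b y t = zlG dR sR b 0 t + y t := by
  cases t with
  | none => simp [zlG]
  | some r => simp [zlG]

variable {ℓ : ℕ} [Fact ℓ.Prime] {ι : Type} [Fintype ι] [DecidableEq ι] {σ : Type} [Fintype σ]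
  [DecidableEq σ] {a : ι → ℕ} {i₀ : ι} {dR : σ → ZMod ℓ} {sR : σ → σ → ZMod ℓ}
  {A : ι → ι → Option σ → ZMod ℓ} {M : Option σ → ZMod ℓ → Submodule (ZMod ℓ) (LSG ℓ i₀)}

open Classical in
/-- F3: the number of local conditions -/
theorem card_HMG (hM : LDG a i₀ dR sR A M) (κ : Option σ → ZMod ℓ) :
    (univ.filter fun x : (Option σ → {j : ι // j ≠ i₀} → ZMod ℓ) ×
      (Option σ → {j : ι // j ≠ i₀} → ZMod ℓ) => HMG i₀ dR sR M x.1 x.2 κ).card ≤
        ℓ ^ (Fintype.card {j : ι // j ≠ i₀} * (Fintype.card σ + 1)) := by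
  set S : Option σ → Finset (LSG ℓ i₀) := fun t =>
    univ.filter fun w : LSG ℓ i₀ => w ∈ M t (κ t) with hS
  have hc : ∀ t, (S t).card = ℓ ^ Fintype.card {j : ι // j ≠ i₀} := by
    intro t
    have h1 : (S t).card = Fintype.card (M t (κ t)) := by
      rw [hS, ← Fintype.card_subtype]
    have h2 : Fintype.card (M t (κ t)) = Fintype.card (ZMod ℓ) ^ finrank (ZMod ℓ) (M t (κ t)) :=
      Module.card_eq_pow_finrank
    rw [h1, h2, hM.dim t (κ t), ZMod.card]
  have hp : (Fintype.piFinset S).card =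
      ℓ ^ (Fintype.card {j : ι // j ≠ i₀} * (Fintype.card σ + 1)) := by
    rw [Fintype.card_piFinset, prod_congr rfl fun t _ => hc t, prod_const, card_univ,
      Fintype.card_option, ← pow_mul]
  rw [← hp]
  refine card_le_card_of_injOn (fun x t => ((fun j => x.1 t j,
    fun j => zlG dR sR (fun s => x.1 s j) (fun s => x.2 s j) t) : LSG ℓ i₀)) ?_ ?_
  · intro x hx
    rw [mem_coe, mem_filter] at hx
    rw [mem_coe, Fintype.mem_piFinset]
    intro t
    rw [hS, mem_filter]
    exact ⟨mem_univ _, hx.2 t⟩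
  · intro x _ x' _ h
    have e1 : x.1 = x'.1 := by
      funext t j
      exact congrFun (congrArg Prod.fst (congrFun h t)) j
    refine Prod.ext e1 ?_
    funext t j
    have e2 : zlG dR sR (fun s => x.1 s j) (fun s => x.2 s j) t =
        zlG dR sR (fun s => x'.1 s j) (fun s => x'.2 s j) t :=
      congrFun (congrArg Prod.snd (congrFun h t)) j
    rw [f3_zlG, f3_zlG dR sR (fun s => x'.1 s j), e1] at e2
    exact add_left_cancel e2

end Pool.Agent.Helper54.PT
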