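import Pool.Agent.Helper1.TW.C16C19
import Pool.Agent.Helper54.PT.DefsG

/-! Module G2 of the TG project (MP_1d384c_nt). -/

set_option autoImplicit false
set_option linter.unusedSectionVars false
set_option linter.unusedVariables false

namespace Pool.Agent.Helper54.PT

open Polynomial Finset Module Pool.Agent.Helper47.BSD

variable {F : Type} [Field F] [Finite F] {ℓ : ℕ} [Fact ℓ.Prime] {ι : Type} [Fintype ι]
  [DecidableEq ι] {σ : Type} [Fintype σ] [DecidableEq σ] {a : ι → ℕ} {e : ι → F[X]}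
  {R : σ → Prm F} {lg : F → ZMod ℓ}

theorem g2_not_dvd (hS : SetupG R e) (D : Finset (Prm F)) (Q : Prm F) (hQ : Q ∉ D)
    (hQR : ∀ r, Q ≠ R r) (i j : ι) (hij : i ≠ j) : ¬ Q.1 ∣ (∏ P ∈ D, P.1) * (e i - e j) := by
  intro h
  have hp := Q.2.2.prime
  rcases hp.dvd_or_dvd h with h | h
  · obtain ⟨P, hP, h1⟩ := hp.exists_mem_finset_dvd h
    exact hQ (by rw [c16_eq_of_dvd h1]; exact hP)
  · obtain ⟨r, hr⟩ := (hS.mem Q).2 ⟨i, j, hij, h⟩
    exact hQR r hr.symm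

/-- G2: good primes -/
theorem selmer_goodG (hq : ℓ ∣ Nat.card F - 1) (ha : ∀ i, ¬ ℓ ∣ a i) (hs : ¬ ℓ ∣ ∑ i, a i)
    (hS : SetupG R e) (D : Finset (Prm F)) (d : ι → (RatFunc F)ˣ)
    (hd : d ∈ selmerSet ℓ a (tw e D)) (Q : Prm F) (hQ : Q ∉ D) (hQR : ∀ r, Q ≠ R r) (i : ι) :
    (ordK Q (d i : RatFunc F) : ZMod ℓ) = 0 := by
  obtain ⟨v, hv, hvQ⟩ := exists_absP Q
  have hℓ : ℓ.Prime := Fact.out
  have hg : IsGood ℓ (tw e D) v := by
    refine ⟨1, 0, one_ne_zero, fun i => ?_, fun i j hij => ?_⟩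
    · rw [one_pow, one_mul, sub_zero]
      by_cases h0 : tw e D i = 0
      · rw [h0, map_zero]; exact zero_le_one
      · rw [hvQ _ h0]
        have h1 : (∏ P ∈ D, P.1) * e i ≠ 0 := fun h => h0 (by rw [tw, h, map_zero])
        rw [tw, ordK_poly Q h1]
        exact zpow_le_one_of_nonpos₀ one_le_two (by simp)
    · rw [one_pow, one_mul]
      have h1 : tw e D i - tw e D j = algebraMap F[X] (RatFunc F) ((∏ P ∈ D, P.1) * (e i - e j)) := by
        rw [tw, tw, ← map_sub, mul_sub]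
      have h2 := g2_not_dvd hS D Q hQ hQR i j hij
      have h3 : (∏ P ∈ D, P.1) * (e i - e j) ≠ 0 := fun h => h2 (by rw [h]; exact dvd_zero _)
      have h4 : algebraMap F[X] (RatFunc F) ((∏ P ∈ D, P.1) * (e i - e j)) ≠ 0 := by
        rw [Ne, FaithfulSMul.algebraMap_eq_zero_iff]
        exact h3
      rw [h1, hvQ _ h4, ordK_poly Q h3, multiplicity_eq_zero.2 h2]
      simp
  obtain ⟨x, hx, hx'⟩ := c16_root (F := F) (RatFunc F) hs ha v hv (tw e D) hg d hd i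
  rw [hvQ _ (d i).ne_zero, hvQ _ hx, ← zpow_natCast, ← zpow_mul] at hx'
  have h5 := zpow_right_injective₀ (zero_lt_two' ℝ) (by norm_num : (2:ℝ) ≠ 1) hx'
  have h6 : ordK Q (d i : RatFunc F) = ordK Q x * ℓ := by linarith
  rw [h6]
  push_cast
  rw [ZMod.natCast_self, mul_zero]

end Pool.Agent.Helper54.PT
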