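import Pool.Agent.Helper1.TW.C22
import Pool.Agent.Helper11.TG.G2

/-! Module G9 of the TG project (MP_1d384c_nt). -/

set_option autoImplicit false
set_option linter.unusedSectionVars false
set_option linter.unusedVariables false

namespace Pool.Agent.Helper54.PT

open Polynomial Finset Module Pool.Agent.Helper47.BSD

variable {F : Type} [Field F] {ℓ : ℕ} [Fact ℓ.Prime] {ι : Type} [Fintype ι]
  [DecidableEq ι] {σ : Type} [Fintype σ] [DecidableEq σ] {a : ι → ℕ} {e : ι → F[X]}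
  {R : σ → Prm F} {lg : F → ZMod ℓ}

theorem g9_e_ne (hS : SetupG R e) {i j : ι} (hij : i ≠ j) : e i - e j ≠ 0 :=
  sub_ne_zero.2 (hS.ne i j hij)

theorem g9_sub_ne (hS : SetupG R e) (D : Finset (Prm F)) {i j : ι} (hij : i ≠ j) :
    tw e D i - tw e D j ≠ 0 := by
  rw [c22_sub]
  exact c22_amap_ne (mul_ne_zero (c22_D_monic D).ne_zero (g9_e_ne hS hij))

/-- the order of `E i - E m` -/
theorem g9_ord (hS : SetupG R e) (D : Finset (Prm F)) (Q : Prm F) {i j : ι}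
    (hij : i ≠ j) : (ordK Q (tw e D i - tw e D j) : ZMod ℓ) = (∑ P ∈ D, if Q = P then 1 else 0) +
      (ordK Q (algebraMap F[X] (RatFunc F) (e i - e j)) : ZMod ℓ) := by
  have hφ : c22_Hom (fun x : RatFunc F => (ordK Q x : ZMod ℓ)) := c22_hom_ord Q
  have n1 : ∀ P : Prm F, algebraMap F[X] (RatFunc F) P.1 ≠ 0 := fun P => c22_amap_ne P.2.1.ne_zero
  have e1 : tw e D i - tw e D j = (∏ P ∈ D, algebraMap F[X] (RatFunc F) P.1) *
      algebraMap F[X] (RatFunc F) (e i - e j) := by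
    rw [c22_sub, map_mul, map_prod]
  have hpr : ∀ P : Prm F, (ordK Q (algebraMap F[X] (RatFunc F) P.1) : ZMod ℓ)
      = if Q = P then 1 else 0 := by
    intro P
    rw [ordK_prime]
    split_ifs <;> simp
  have s1 := hφ _ _ (prod_ne_zero_iff.2 fun P (_ : P ∈ D) => n1 P) (c22_amap_ne (g9_e_ne hS hij))
  have s3 := c22_prod hφ D (fun P => algebraMap F[X] (RatFunc F) P.1) fun P _ => n1 P
  simp only at s1 s3
  rw [e1, s1, s3, sum_congr rfl fun P _ => hpr P]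

/-- the leading coefficient of `E i - E m` -/
theorem g9_lc (D : Finset (Prm F)) (i j : ι) :
    lcK (tw e D i - tw e D j) = lcK (algebraMap F[X] (RatFunc F) (e i - e j)) := by
  rw [c22_sub, lcK_poly, leadingCoeff_mul, (c22_D_monic D).leadingCoeff, one_mul, lcK_poly]

theorem g9_ord_symm (Q : Prm F) {i j : ι} (hij : e i - e j ≠ 0) :
    (ordK Q (algebraMap F[X] (RatFunc F) (e i - e j)) : ZMod ℓ) =
      (ordK Q (algebraMap F[X] (RatFunc F) (e j - e i)) : ZMod ℓ) := by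
  have hij' : e j - e i ≠ 0 := by
    rw [← neg_sub]
    exact neg_ne_zero.2 hij
  rw [ordK_poly Q hij, ordK_poly Q hij', ← neg_sub (e i) (e j), multiplicity_neg]

theorem g9_lc_symm (hlg : IsLog ℓ lg) (hm : lg (-1) = 0) {i j : ι} (hij : e i - e j ≠ 0) :
    lg (lcK (algebraMap F[X] (RatFunc F) (e i - e j))) =
      lg (lcK (algebraMap F[X] (RatFunc F) (e j - e i))) := by
  rw [lcK_poly, lcK_poly, ← neg_sub (e i) (e j), leadingCoeff_neg, neg_eq_neg_one_mul,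
    hlg.1 _ _ (neg_ne_zero.2 one_ne_zero) (leadingCoeff_ne_zero.2 hij), hm, zero_add]

variable [Finite F]

/-- G9 with the relations and the good primes as hypotheses -/
theorem g9_aux (hlg : IsLog ℓ lg) (hm : lg (-1) = 0) (ha' : ∀ i, ¬ ℓ ∣ a i)
    (hs : ¬ ℓ ∣ ∑ i, a i) (hS : SetupG R e) (i₀ : ι) (D : Finset (Prm F))
    (hD : ∀ P ∈ D, ∀ r, P ≠ R r) (d : ι → (RatFunc F)ˣ)
    (h15 : ∀ Q : Prm F, ∑ i, (a i : ZMod ℓ) * (ordK Q (d i) : ZMod ℓ) = 0)
    (h15' : ∑ i, (a i : ZMod ℓ) * lg (lcK (d i : RatFunc F)) = 0)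
    (h16 : ∀ Q : Prm F, Q ∉ D → (∀ r, Q ≠ R r) → ∀ i, (ordK Q (d i : RatFunc F) : ZMod ℓ) = 0)
    (v₀ : {j : ι // j ≠ i₀} → ZMod ℓ)
    (hb : ∀ r, ∀ j : {j : ι // j ≠ i₀}, (ordK (R r) (d j.1 : RatFunc F) : ZMod ℓ) =
      tauG a i₀ (AG R lg e) v₀ j (some r))
    (hb' : ∀ j : {j : ι // j ≠ i₀}, lg (lcK (d j.1 : RatFunc F)) =
      tauG a i₀ (AG R lg e) v₀ j none)
    (hv : ∀ P ∈ D, ∀ j : {j : ι // j ≠ i₀}, (ordK P (d j.1 : RatFunc F) : ZMod ℓ) = v₀ j) :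
    ∃ (c : ι → ℕ) (x : ι → RatFunc F), ∀ j, (d j : RatFunc F) =
      (∏ i, tt ℓ a (tw e D) i j ^ c i) * x j ^ ℓ := by
  have ha : ∀ i, (a i : ZMod ℓ) ≠ 0 := fun i h => ha' i ((ZMod.natCast_eq_zero_iff _ _).1 h)
  have hA : asum ℓ a ≠ 0 := by
    unfold asum
    intro h
    apply hs
    rw [← ZMod.natCast_eq_zero_iff]
    push_cast
    exact h
  set w : ι → ZMod ℓ := ext a i₀ v₀ with hw
  have hwj : ∀ j : {j : ι // j ≠ i₀}, w j.1 = v₀ j := by
    intro j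
    rw [hw, ext, dif_neg j.2]
  have hsumw : ∑ m, (a m : ZMod ℓ) * w m = 0 := by
    rw [← add_sum_erase _ _ (mem_univ i₀)]
    have h1 : w i₀ = -((a i₀ : ZMod ℓ)⁻¹ * ∑ j : {j : ι // j ≠ i₀}, (a j.1 : ZMod ℓ) * v₀ j) := by
      rw [hw, ext, dif_pos rfl]
    have h2 : ∑ m ∈ univ.erase i₀, (a m : ZMod ℓ) * w m
        = ∑ j : {j : ι // j ≠ i₀}, (a j.1 : ZMod ℓ) * v₀ j := by
      rw [sum_subtype (univ.erase i₀) (p := fun j => j ≠ i₀) (by simp)
        (fun m => (a m : ZMod ℓ) * w m)]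
      exact sum_congr rfl fun j _ => by rw [hwj j]
    rw [h1, h2]
    have := ha i₀
    field_simp
    ring
  let c : ι → ℕ := fun i => (-(w i * a i * (asum ℓ a)⁻¹)).val
  have hc : ∀ i, (c i : ZMod ℓ) = -(w i * a i * (asum ℓ a)⁻¹) := fun i => ZMod.natCast_zmod_val _
  have hE : ∀ i j, i ≠ j → tw e D i - tw e D j ≠ 0 := fun i j hij => g9_sub_ne hS D hij
  have ht0 : ∀ j, ∏ i, tt ℓ a (tw e D) i j ^ c i ≠ 0 := fun j =>
    prod_ne_zero_iff.2 fun i _ => pow_ne_zero _ (c22_tt_ne_zero a _ hE i j)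
  -- orders
  have hord : ∀ (Q : Prm F) (j : ι), (ordK Q (d j : RatFunc F) : ZMod ℓ)
      = (ordK Q (∏ i, tt ℓ a (tw e D) i j ^ c i) : ZMod ℓ) := by
    intro Q j
    refine c22_all (c22_hom_ord Q) a (tw e D) hE (fun i j => (∑ P ∈ D, if Q = P then 1 else 0) +
      (ordK Q (algebraMap F[X] (RatFunc F) (e i - e j)) : ZMod ℓ))
      (fun i m him => g9_ord hS D Q him)
      (fun i m him => by rw [g9_ord_symm Q (g9_e_ne hS him)]) ha w (asum ℓ a) c hc
      d i₀ (h15 Q) ?_ j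
    intro j hj
    by_cases hQR : ∃ r, Q = R r
    · obtain ⟨r₀, rfl⟩ := hQR
      have hQD : R r₀ ∉ D := fun h => hD _ h r₀ rfl
      have h1 : (∑ P ∈ D, if R r₀ = P then (1 : ZMod ℓ) else 0) = 0 := by
        rw [sum_ite_eq, if_neg hQD]
      rw [hb r₀ ⟨j, hj⟩]
      simp only [h1, zero_add]
      change ∑ m, (a m : ZMod ℓ) * (asum ℓ a)⁻¹ * (w j - w m) *
        (ordK (R r₀) (algebraMap F[X] (RatFunc F) (e m - e j)) : ZMod ℓ) = _
      apply sum_congr rfl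
      intro m _
      by_cases hjm : j = m
      · subst hjm; ring
      · rw [g9_ord_symm (R r₀) (g9_e_ne hS hjm)]
    · have hz : ∀ m, j ≠ m →
          (ordK Q (algebraMap F[X] (RatFunc F) (e j - e m)) : ZMod ℓ) = 0 := by
        intro m hjm
        have hnd : ¬ Q.1 ∣ e j - e m := fun hd' => by
          obtain ⟨r, hr⟩ := (hS.mem Q).2 ⟨j, m, hjm, hd'⟩
          exact hQR ⟨r, hr.symm⟩
        rw [ordK_poly Q (g9_e_ne hS hjm), multiplicity_eq_zero.2 hnd]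
        simp
      have hz' : ∀ m, (a m : ZMod ℓ) * (asum ℓ a)⁻¹ * (w j - w m) *
          ((∑ P ∈ D, if Q = P then (1 : ZMod ℓ) else 0) +
            (ordK Q (algebraMap F[X] (RatFunc F) (e j - e m)) : ZMod ℓ)) =
          (a m : ZMod ℓ) * (asum ℓ a)⁻¹ * (w j - w m) *
            (∑ P ∈ D, if Q = P then (1 : ZMod ℓ) else 0) := by
        intro m
        by_cases hjm : j = m
        · subst hjm; ring
        · rw [hz m hjm, add_zero]
      rw [sum_congr rfl fun m _ => hz' m]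
      by_cases hQD : Q ∈ D
      · rw [hv Q hQD ⟨j, hj⟩, ← hwj ⟨j, hj⟩]
        have h1 : (∑ P ∈ D, if Q = P then (1 : ZMod ℓ) else 0) = 1 := by
          rw [sum_ite_eq, if_pos hQD]
        simp only [h1, mul_one]
        have h3 : ∀ m, (a m : ZMod ℓ) * (asum ℓ a)⁻¹ * (w j - w m)
            = (asum ℓ a)⁻¹ * w j * a m - (asum ℓ a)⁻¹ * (a m * w m) := fun m => by ring
        simp only [h3]
        rw [sum_sub_distrib, ← mul_sum, ← mul_sum, hsumw]
        change w j = (asum ℓ a)⁻¹ * w j * asum ℓ a - _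
        field_simp
        ring
      · have h1 : (∑ P ∈ D, if Q = P then (1 : ZMod ℓ) else 0) = 0 := by
          rw [sum_ite_eq, if_neg hQD]
        rw [h16 Q hQD (fun r hr => hQR ⟨r, hr⟩) j, h1, sum_eq_zero]
        intro m _
        rw [mul_zero]
  -- leading coefficients
  have hlc : ∀ j : ι, lg (lcK (d j : RatFunc F)) = lg (lcK (∏ i, tt ℓ a (tw e D) i j ^ c i)) := by
    intro j
    refine c22_all (c22_hom_lc hlg) a (tw e D) hE
      (fun i j => lg (lcK (algebraMap F[X] (RatFunc F) (e i - e j))))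
      (fun i m him => by simp only [g9_lc D i m])
      (fun i m him => g9_lc_symm hlg hm (g9_e_ne hS him)) ha w (asum ℓ a) c hc
      d i₀ h15' ?_ j
    intro j hj
    rw [hb' ⟨j, hj⟩]
    change ∑ m, (a m : ZMod ℓ) * (asum ℓ a)⁻¹ * (w j - w m) *
        lg (lcK (algebraMap F[X] (RatFunc F) (e m - e j))) = _
    apply sum_congr rfl
    intro m _
    by_cases hjm : j = m
    · subst hjm; ring
    · rw [g9_lc_symm hlg hm (g9_e_ne hS hjm)]
  -- conclusion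
  have hfin : ∀ j, ∃ x : RatFunc F, (d j : RatFunc F) = (∏ i, tt ℓ a (tw e D) i j ^ c i) * x ^ ℓ := by
    intro j
    have h0 : (d j : RatFunc F) ≠ 0 := (d j).ne_zero
    have h1 : (d j : RatFunc F) * (∏ i, tt ℓ a (tw e D) i j ^ c i)⁻¹ ≠ 0 :=
      mul_ne_zero h0 (inv_ne_zero (ht0 j))
    obtain ⟨y, hy⟩ := exists_pow_of_class hlg h1 (fun Q => by
      rw [← ZMod.intCast_zmod_eq_zero_iff_dvd]
      have h2 := c22_hom_ord (ℓ := ℓ) Q _ _ h0 (inv_ne_zero (ht0 j))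
      simp only at h2
      have h3 := c22_inv (c22_hom_ord (ℓ := ℓ) Q) (ht0 j)
      rw [h2, h3, hord Q j]
      ring) (by
      have h2 := c22_hom_lc hlg _ _ h0 (inv_ne_zero (ht0 j))
      simp only at h2
      have h3 := c22_inv (c22_hom_lc hlg) (ht0 j)
      rw [h2, h3, hlc j]
      ring)
    refine ⟨y, ?_⟩
    rw [← hy]
    field_simp [ht0 j]
  choose x hx using hfin
  exact ⟨c, x, hx⟩

/-- G9: Selmer elements with the class of a torsion element -/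
theorem selG_of_tor (hq : ℓ ∣ Nat.card F - 1) (hlg : IsLog ℓ lg) (hm : lg (-1) = 0)
    (hrec : ∀ P Q : Prm F, P ≠ Q → sy lg Q.1 P.1 = sy lg P.1 Q.1)
    (ha : ∀ i, ¬ ℓ ∣ a i) (hs : ¬ ℓ ∣ ∑ i, a i) (hS : SetupG R e) (i₀ : ι)
    (D : Finset (pd lg hrec R).P) (d : ι → (RatFunc F)ˣ)
    (hd : d ∈ selmerSet ℓ a (tw e (und lg hrec R D))) (v₀ : {j : ι // j ≠ i₀} → ZMod ℓ)
    (h : (bcl lg R i₀ d, vcl lg hrec R i₀ D d) =
      tor (pd lg hrec R) (tauG a i₀ (AG R lg e)) D v₀) :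
    ∃ (c : ι → ℕ) (x : ι → RatFunc F), ∀ j, (d j : RatFunc F) =
      (∏ i, tt ℓ a (tw e (und lg hrec R D)) i j ^ c i) * x j ^ ℓ := by
  have hD : ∀ P ∈ und lg hrec R D, ∀ r, P ≠ R r := by
    intro P hP r
    rw [und, mem_map] at hP
    obtain ⟨P', _, rfl⟩ := hP
    exact P'.2 r
  obtain ⟨h15, h15'⟩ := selmer_rel_aux (a := a) (e := e) (lg := lg) (fun h => prod_pow_of_mem h)
    (fun Q _ _ hx hy => ordK_mul Q hx hy) (fun hx => lcK_ne_zero hx) (fun hx hy => lcK_mul hx hy)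
    exists_absP (exists_absInf F) (fun P v hv _ hx h => class_of_pow_absP hlg P v hv hx h)
    (fun v hv _ hx h => class_of_pow_absInf hlg v hv hx h) hlg (und lg hrec R D) d hd
  rw [tor, Prod.mk.injEq] at h
  obtain ⟨hb, hv⟩ := h
  refine g9_aux hlg hm ha hs hS i₀ (und lg hrec R D) hD d h15 h15'
    (fun Q hQ hQR i => selmer_goodG hq ha hs hS _ d hd Q hQ hQR i) v₀ ?_ ?_ ?_
  · intro r j
    exact congrFun (congrFun hb (some r)) j
  · intro j
    exact congrFun (congrFun hb none) j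
  · intro P hP j
    rw [und, mem_map] at hP
    obtain ⟨P', hP', rfl⟩ := hP
    exact congrFun (congrFun hv ⟨P', hP'⟩) j

end Pool.Agent.Helper54.PT
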