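import Pool.Agent.Helper54.PT.LocG
import Pool.Agent.Helper33.TW.Pre
import Pool.Agent.Helper54.TG.L3
import Pool.Agent.Helper96.TG.L79
import Pool.Agent.Helper32.TG.L4

/-! Modules S3, S4 of the TG project (MP_1d384c_nt). -/

set_option autoImplicit false
set_option linter.unusedSectionVars false
set_option linter.unusedVariables false

namespace Pool.Agent.Helper54.PT

open Polynomial Finset Filter Topology Module Pool.Agent.Helper43.TW Pool.Agent.Helper47.BSD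

variable {k : Type} [NontriviallyNormedField k] [IsUltrametricDist k] [CompleteSpace k]
  {ℓ : ℕ} [Fact ℓ.Prime] {π : k} {ι : Type} [Fintype ι] [DecidableEq ι] {a : ι → ℕ}
  {K : Type} [Field K] {φ : K →+* k} {f : Cl ℓ k →+ ZMod ℓ × ZMod ℓ} {e : ι → K}

theorem s34_ne (he : ∀ i j, i ≠ j → e i ≠ e j) {D : K} (hD : D ≠ 0) :
    ∀ i j, i ≠ j → φ (D * e i) ≠ φ (D * e j) := by
  intro i j hij h
  exact he i j hij (mul_left_cancel₀ hD (φ.injective h))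

/-- the map to the local space -/
noncomputable def s34_map (i₀ : ι) (f : Cl ℓ k →+ ZMod ℓ × ZMod ℓ) : (ι → Cl ℓ k) →+ LSG ℓ i₀ where
  toFun u := mkG i₀ (fun i => f (u i))
  map_zero' := by
    refine Prod.ext ?_ ?_ <;> funext j <;> simp [mkG]
  map_add' u v := by
    refine Prod.ext ?_ ?_ <;> funext j <;> simp [mkG]

/-- S3 with L7 as a hypothesis -/
theorem mem_of_descent_aux (hk : LF ℓ π) (i₀ : ι) (c : ZMod ℓ)
    (M : Submodule (ZMod ℓ) (LSG ℓ i₀)) (hM : LocS hk φ f a e i₀ c ⊆ M) {D : K} (hD : D ≠ 0)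
    (hDc : f (cl ℓ (φ D)) = (0, c)) {u : ι → Cl ℓ k}
    (hu : u ∈ AddSubgroup.closure {w : ι → Cl ℓ k | PtData hk a (fun i => φ (D * e i)) w}) :
    mkG i₀ (fun i => f (u i)) ∈ M := by
  have h : AddSubgroup.closure {w : ι → Cl ℓ k | PtData hk a (fun i => φ (D * e i)) w} ≤
      M.toAddSubgroup.comap (s34_map i₀ f) := by
    rw [AddSubgroup.closure_le]
    intro w hw
    exact hM ⟨D, w, hD, hDc, hw, rfl⟩
  exact h hu

/-- S3: the descent group and the local sets (uses L7) -/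
theorem mem_of_descent (hk : LF ℓ π) (hc : cl ℓ (-1 : k) = 0) (ha : ∀ i, ¬ ℓ ∣ a i)
    (hs : ¬ ℓ ∣ ∑ i, a i) (hf : FC hk f) (he : ∀ i j, i ≠ j → e i ≠ e j) (i₀ : ι) (c : ZMod ℓ)
    (M : Submodule (ZMod ℓ) (LSG ℓ i₀)) (hM : LocS hk φ f a e i₀ c ⊆ M) {D : K} (hD : D ≠ 0)
    (hDc : f (cl ℓ (φ D)) = (0, c)) {d : ι → kˣ}
    (hd : d ∈ descentGroup ℓ a (fun i => φ (D * e i))) :
    mkG i₀ (fun i => f (cl ℓ (d i : k))) ∈ M :=
  mem_of_descent_aux hk i₀ c M hM hD hDc (closure_ptData Fact.out hk hc ha hs (s34_ne he hD) hd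
    fun _ h => ptData_of_point Fact.out hk hc ha hs (s34_ne he hD) h)

/-- S4 with L4 as a hypothesis -/
theorem mem_of_tor_aux (hk : LF ℓ π) (i₀ : ι) (c : ZMod ℓ)
    (M : Submodule (ZMod ℓ) (LSG ℓ i₀)) (hM : LocS hk φ f a e i₀ c ⊆ M) {D : K} (hD : D ≠ 0)
    (hDc : f (cl ℓ (φ D)) = (0, c)) (i : ι)
    (h4 : PtData hk a (fun i => φ (D * e i))
      (fun j => cl ℓ (tt ℓ a (fun i => φ (D * e i)) i j))) :
    mkG i₀ (fun j => f (cl ℓ (φ (tt ℓ a (fun i => D * e i) i j)))) ∈ M := by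
  refine hM ⟨D, _, hD, hDc, h4, ?_⟩
  simp only [Pool.Agent.Helper33.TW.map_tt]

/-- S4: torsion and the local sets (uses L4) -/
theorem mem_of_tor (hk : LF ℓ π) (ha : ∀ i, ¬ ℓ ∣ a i)
    (he : ∀ i j, i ≠ j → e i ≠ e j) (i₀ : ι) (c : ZMod ℓ)
    (M : Submodule (ZMod ℓ) (LSG ℓ i₀)) (hM : LocS hk φ f a e i₀ c ⊆ M) {D : K} (hD : D ≠ 0)
    (hDc : f (cl ℓ (φ D)) = (0, c)) (i : ι) :
    mkG i₀ (fun j => f (cl ℓ (φ (tt ℓ a (fun i => D * e i) i j)))) ∈ M :=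
  mem_of_tor_aux hk i₀ c M hM hD hDc i (ptData_tt Fact.out hk ha (s34_ne he hD) i)

end Pool.Agent.Helper54.PT
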